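import Mathlib.SetTheory.Cardinal.Continuum
import Mathlib.SetTheory.Cardinal.Cofinality.Basic
import Mathlib.Topology.Separation.Regular
import Mathlib.Order.Filter.AtTopBot.Basic
import Mathlib.Algebra.Order.BigOperators.Group.Finset
import Mathlib.SetTheory.Cardinal.Arithmetic

/-!
Closed discrete subspaces of regular strongly star-Hurewicz spaces.
-/

namespace Pool.Agent.Results.MP_bbbdfa_lc.ClosedDiscreteBound

open Cardinal Set Filter

universe u

/-- `St(A, 𝒰)`: the union of the members of `𝒰` that meet `A`. -/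
def St {X : Type u} (A : Set X) (𝒰 : Set (Set X)) : Set X := {x | ∃ U ∈ 𝒰, x ∈ U ∧ (U ∩ A).Nonempty}

/-- `𝒰` is an open cover of `X`. -/
def IsOpenCover {X : Type u} [TopologicalSpace X] (𝒰 : Set (Set X)) : Prop :=
  (∀ U ∈ 𝒰, IsOpen U) ∧ ⋃₀ 𝒰 = Set.univ

/-- `X` is strongly star-Hurewicz: for every sequence `𝒰 n` of open covers there are finite sets
`F n` such that every point lies in `St (F n) (𝒰 n)` for all but finitely many `n`. -/
def StronglyStarHurewicz (X : Type u) [TopologicalSpace X] : Prop :=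
  ∀ 𝒰 : ℕ → Set (Set X), (∀ n, IsOpenCover (𝒰 n)) →
    ∃ F : ℕ → Set X, (∀ n, (F n).Finite) ∧ ∀ x, ∀ᶠ n in atTop, x ∈ St (F n) (𝒰 n)

/-- `ℱ ⊆ ℕ^ℕ` is unbounded under eventual domination: no `g` dominates every member. -/
def Unbounded (ℱ : Set (ℕ → ℕ)) : Prop := ∀ g : ℕ → ℕ, ∃ f ∈ ℱ, ¬ ∀ᶠ n in atTop, f n ≤ g n

/-- The bounding number `𝔟`: the least size of an unbounded family. -/
noncomputable def bNum : Cardinal.{0} := sInf {κ | ∃ ℱ : Set (ℕ → ℕ), Unbounded ℱ ∧ #ℱ = κ}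

/-- `𝒞` is a family of countable subsets of `I` such that every countable subset of `I` is
contained in a member of `𝒞`. -/
def CoversCountable {I : Type} (𝒞 : Set (Set I)) : Prop :=
  (∀ C ∈ 𝒞, C.Countable) ∧ ∀ A : Set I, A.Countable → ∃ C ∈ 𝒞, A ⊆ C

/-- `cof([κ]^ℵ₀)`: the least size of a family of countable subsets of (a set of size) `κ` such
that every countable subset is contained in a member of the family. -/
noncomputable def cofCountable (κ : Cardinal.{0}) : Cardinal.{0} :=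
  sInf {θ | ∃ 𝒞 : Set (Set κ.out), CoversCountable 𝒞 ∧ #𝒞 = θ}

/-- `λ = min {κ : 𝔟 ≤ κ ≤ 𝔠, cof([κ]^ℵ₀) = κ}`. -/
noncomputable def lam : Cardinal.{0} := sInf {κ | bNum ≤ κ ∧ κ ≤ 𝔠 ∧ cofCountable κ = κ}


theorem unbounded_univ : Unbounded (Set.univ : Set (ℕ → ℕ)) := by
  intro g
  refine ⟨fun n => g n + 1, Set.mem_univ _, fun h => ?_⟩
  obtain ⟨n, hn⟩ := h.exists
  simp at hn

theorem exists_bNum : ∃ ℱ : Set (ℕ → ℕ), Unbounded ℱ ∧ #ℱ = bNum :=
  csInf_mem (s := {κ | ∃ ℱ : Set (ℕ → ℕ), Unbounded ℱ ∧ #ℱ = κ}) ⟨_, _, unbounded_univ, rfl⟩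

theorem not_unbounded_of_countable {ℱ : Set (ℕ → ℕ)} (h : ℱ.Countable) : ¬ Unbounded ℱ := by
  intro hU
  rcases ℱ.eq_empty_or_nonempty with h0 | h0
  · obtain ⟨f, hf, -⟩ := hU 0
    simp [h0] at hf
  · obtain ⟨e, rfl⟩ := h.exists_eq_range h0
    obtain ⟨f, ⟨k, rfl⟩, hf⟩ := hU (fun n => ∑ j ∈ Finset.range (n + 1), e j n)
    refine hf (eventually_atTop.2 ⟨k, fun n hn => ?_⟩)
    exact Finset.single_le_sum (f := fun j => e j n) (fun _ _ => Nat.zero_le _)
      (Finset.mem_range.2 (by omega))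

theorem aleph0_lt_bNum : ℵ₀ < bNum := by
  obtain ⟨ℱ, hU, hℱ⟩ := exists_bNum
  rw [← hℱ]
  by_contra hc
  exact not_unbounded_of_countable (Cardinal.le_aleph0_iff_set_countable.1 (not_lt.1 hc)) hU

theorem bNum_le_continuum : bNum ≤ 𝔠 := by
  refine (csInf_le' (s := {κ | ∃ ℱ : Set (ℕ → ℕ), Unbounded ℱ ∧ #ℱ = κ})
    ⟨_, unbounded_univ, rfl⟩).trans ?_
  simp

theorem exists_cofCountable (κ : Cardinal.{0}) :
    ∃ 𝒞 : Set (Set κ.out), CoversCountable 𝒞 ∧ #𝒞 = cofCountable κ := by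
  refine csInf_mem (s := {θ | ∃ 𝒞 : Set (Set κ.out), CoversCountable 𝒞 ∧ #𝒞 = θ}) ?_
  exact ⟨_, {C | C.Countable}, ⟨fun C hC => hC, fun A hA => ⟨A, hA, subset_rfl⟩⟩, rfl⟩

theorem cofCountable_continuum : cofCountable 𝔠 = 𝔠 := by
  apply le_antisymm
  · refine (csInf_le' (s := {θ | ∃ 𝒞 : Set (Set ((𝔠 : Cardinal.{0}).out)), CoversCountable 𝒞 ∧ #𝒞 = θ})
      ⟨{C | C.Countable}, ⟨fun C hC => hC, fun A hA => ⟨A, hA, subset_rfl⟩⟩, rfl⟩).trans ?_
    have h := Cardinal.mk_bounded_set_le ((𝔠 : Cardinal.{0}).out) ℵ₀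
    have h2 : #{t : Set ((𝔠 : Cardinal.{0}).out) // #t ≤ ℵ₀} =
        #({C : Set ((𝔠 : Cardinal.{0}).out) | C.Countable} : Set (Set ((𝔠 : Cardinal.{0}).out))) := by
      apply Cardinal.mk_congr
      exact Equiv.subtypeEquivRight fun t => Cardinal.le_aleph0_iff_set_countable
    rw [← h2]
    refine h.trans ?_
    rw [Cardinal.mk_out, max_eq_left Cardinal.aleph0_le_continuum,
      Cardinal.continuum_power_aleph0]
  · obtain ⟨𝒞, ⟨hc, hcov⟩, h𝒞⟩ := exists_cofCountable 𝔠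
    rw [← h𝒞]
    have hU : ⋃₀ 𝒞 = (Set.univ : Set ((𝔠 : Cardinal.{0}).out)) := by
      refine Set.eq_univ_of_forall fun x => ?_
      obtain ⟨C, hC, hx⟩ := hcov {x} (Set.countable_singleton x)
      exact ⟨C, hC, hx rfl⟩
    have h1 : 𝔠 ≤ #𝒞 * ℵ₀ := by
      have h2 := Cardinal.mk_sUnion_le 𝒞
      rw [hU, Cardinal.mk_univ, Cardinal.mk_out] at h2
      refine h2.trans (mul_le_mul' le_rfl (ciSup_le' fun s => ?_))
      exact Cardinal.le_aleph0_iff_set_countable.2 (hc s s.2)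
    by_contra hlt
    have hlt : #𝒞 < 𝔠 := not_le.1 hlt
    have h3 : #𝒞 * ℵ₀ < 𝔠 :=
      Cardinal.mul_lt_of_lt Cardinal.aleph0_le_continuum hlt Cardinal.aleph0_lt_continuum
    exact absurd h1 (not_le.2 h3)

theorem lam_mem : bNum ≤ lam ∧ lam ≤ 𝔠 ∧ cofCountable lam = lam :=
  csInf_mem (s := {κ | bNum ≤ κ ∧ κ ≤ 𝔠 ∧ cofCountable κ = κ})
    ⟨𝔠, bNum_le_continuum, le_rfl, cofCountable_continuum⟩

theorem closed_sub {X : Type u} [TopologicalSpace X] {D : Set X} (hc : IsClosed D)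
    (hd : DiscreteTopology D) {S : Set X} (hS : S ⊆ D) : IsClosed S := by
  have h := hc.isClosedEmbedding_subtypeVal.isClosedMap (Subtype.val ⁻¹' S : Set D)
    (isClosed_discrete _)
  rwa [Subtype.image_preimage_coe, Set.inter_eq_right.2 hS] at h

/-- The main construction. -/
theorem not_ssh {X : Type u} [TopologicalSpace X] [RegularSpace X] {D : Set X}
    (hc : IsClosed D) (hdd : DiscreteTopology D) (hle : lift.{u} lam ≤ lift.{0} #D)
    (hX : StronglyStarHurewicz X) : False := by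
  obtain ⟨hb, -, hcof⟩ := lam_mem
  obtain ⟨ℱ, hℱ, hℱc⟩ := exists_bNum
  obtain ⟨𝒞, ⟨hcount, hcov⟩, h𝒞⟩ := exists_cofCountable lam
  rw [hcof] at h𝒞
  have hunc : ℵ₀ < lam := aleph0_lt_bNum.trans_le hb
  let I : Type := lam.out
  have hIc : #I = lam := Cardinal.mk_out _
  have hInf : Infinite I := Cardinal.infinite_iff.2 (by rw [hIc]; exact hunc.le)
  have hne : Nonempty I := inferInstance
  -- the injection of `I` in `D`
  obtain ⟨j⟩ : Nonempty (I ↪ D) := by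
    rw [← Cardinal.lift_mk_le', hIc]; exact hle
  let d : I → X := fun i => (j i : X)
  have hd : Function.Injective d := fun a b h => j.injective (Subtype.ext h)
  have hdD : ∀ S ⊆ Set.range d, IsClosed S := fun S hS =>
    closed_sub hc hdd (hS.trans (by rintro _ ⟨i, rfl⟩; exact (j i).2))
  -- the coding
  obtain ⟨e⟩ : Nonempty ((𝒞 × ℱ) × I ↪ I) := by
    rw [← Cardinal.le_def, Cardinal.mk_prod, Cardinal.mk_prod]
    simp only [Cardinal.lift_id]
    rw [h𝒞, hℱc, hIc, Cardinal.mul_eq_left hunc.le hb (by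
      rintro h; rw [h] at hℱc; exact absurd hℱ (not_unbounded_of_countable (by
        rw [Cardinal.mk_set_eq_zero_iff.1 hℱc]; exact Set.countable_empty))),
      Cardinal.mul_eq_self hunc.le]
  have hen : ∀ C : 𝒞, ∃ en : ℕ → I, (C : Set I) ⊆ Set.range en := by
    intro C
    rcases (C : Set I).eq_empty_or_nonempty with h | h
    · exact ⟨fun _ => Classical.arbitrary I, by rw [h]; exact Set.empty_subset _⟩
    · obtain ⟨en, h2⟩ := (hcount C C.2).exists_eq_range h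
      exact ⟨en, h2.subset⟩
  choose en hen using hen
  have hnon : Nonempty ((𝒞 × ℱ) × I) := by
    obtain ⟨C, hC, -⟩ := hcov ∅ Set.countable_empty
    obtain ⟨f, hf, -⟩ := hℱ 0
    exact ⟨((⟨C, hC⟩, ⟨f, hf⟩), Classical.arbitrary I)⟩
  let a : I → 𝒞 × ℱ := fun i => (Function.invFun e i).1
  have ha : ∀ (p : 𝒞 × ℱ) (i : I), a (e (p, i)) = p := fun p i => by
    simp only [a, Function.leftInverse_invFun e.injective (p, i)]
  -- neighbourhoods
  have hW : ∀ i : I, ∃ W : Set X, IsOpen W ∧ d i ∈ W ∧ ∀ k, d k ∈ closure W → k = i := by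
    intro i
    have hcl : IsClosed (Set.range d \ {d i}) := hdD _ Set.sdiff_subset
    have hmem : (Set.range d \ {d i})ᶜ ∈ nhds (d i) := hcl.isOpen_compl.mem_nhds (by simp)
    obtain ⟨t, ht, htc, hts⟩ := exists_mem_nhds_isClosed_subset hmem
    refine ⟨interior t, isOpen_interior, mem_interior_iff_mem_nhds.2 ht, fun k hk => ?_⟩
    have h1 : d k ∈ t := closure_minimal interior_subset htc hk
    by_contra hki
    exact hts h1 ⟨⟨k, rfl⟩, fun h => hki (hd h)⟩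
  choose W hWo hWd hWc using hW
  let O : I → ℕ → Set X := fun i n => W i \
    ⋃ k ∈ {k : ℕ | k < (a i).2.1 n ∧ en (a i).1 k ≠ i}, closure (W (en (a i).1 k))
  have hOo : ∀ i n, IsOpen (O i n) := by
    intro i n
    refine (hWo i).sdiff (Set.Finite.isClosed_biUnion ?_ fun k _ => isClosed_closure)
    exact (Set.finite_lt_nat _).subset fun k hk => hk.1
  have hOd : ∀ i n, d i ∈ O i n := by
    intro i n
    refine ⟨hWd i, fun h => ?_⟩
    simp only [Set.mem_iUnion, Set.mem_ofPred_eq] at h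
    obtain ⟨k, ⟨-, hk⟩, hk2⟩ := h
    exact hk (hWc _ _ hk2).symm
  let 𝒰 : ℕ → Set (Set X) := fun n => Set.range (fun i => O i n) ∪ {(Set.range d)ᶜ}
  have h𝒰 : ∀ n, IsOpenCover (𝒰 n) := by
    intro n
    refine ⟨?_, Set.eq_univ_of_forall fun x => ?_⟩
    · rintro U (⟨i, rfl⟩ | rfl)
      · exact hOo i n
      · exact (hdD _ subset_rfl).isOpen_compl
    · by_cases hx : x ∈ Set.range d
      · obtain ⟨i, rfl⟩ := hx
        exact ⟨O i n, Or.inl ⟨i, rfl⟩, hOd i n⟩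
      · exact ⟨_, Or.inr rfl, hx⟩
  obtain ⟨F, hFf, hF⟩ := hX 𝒰 h𝒰
  classical
  let c : ℕ → X → I := fun n x => if h : ∃ i, x ∈ O i n then h.choose else Classical.arbitrary I
  have hc' : ∀ n x, (∃ i, x ∈ O i n) → x ∈ O (c n x) n := by
    intro n x h
    simp only [c, dif_pos h]
    exact h.choose_spec
  obtain ⟨C, hC, hAC⟩ := hcov (⋃ n, c n '' F n)
    (Set.countable_iUnion fun n => ((hFf n).image _).countable)
  have hk : ∀ n, ∃ K, ∀ x ∈ F n, ∃ k ≤ K, en ⟨C, hC⟩ k = c n x := by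
    intro n
    have h1 : ∀ x ∈ F n, ∃ k, en ⟨C, hC⟩ k = c n x := fun x hx =>
      hen ⟨C, hC⟩ (hAC (Set.mem_iUnion.2 ⟨n, x, hx, rfl⟩))
    choose! k hk using h1
    obtain ⟨K, hK⟩ := ((hFf n).image k).bddAbove
    exact ⟨K, fun x hx => ⟨k x, hK ⟨x, hx, rfl⟩, hk x hx⟩⟩
  choose g hg using hk
  obtain ⟨f, hf, hfg⟩ := hℱ g
  -- a point outside the countable set
  obtain ⟨i, hi1, hi2⟩ : ∃ i, a i = (⟨C, hC⟩, ⟨f, hf⟩) ∧ i ∉ Set.range (en ⟨C, hC⟩) := by
    by_contra hcon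
    push Not at hcon
    have h1 : Set.range (fun i => e ((⟨C, hC⟩, ⟨f, hf⟩), i)) ⊆ Set.range (en ⟨C, hC⟩) := by
      rintro _ ⟨i, rfl⟩
      exact hcon _ (ha _ i)
    have h2 := (Set.countable_range (en ⟨C, hC⟩)).mono h1
    have h3 : Function.Injective (fun i : I => e (((⟨C, hC⟩ : 𝒞), (⟨f, hf⟩ : ℱ)), i)) := by
      intro x y hxy
      exact (Prod.mk.inj (e.injective hxy)).2
    have h4 : Countable I := by
      have := h2.to_subtype
      exact (Equiv.ofInjective _ h3).countable_iff.2 this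
    have h5 := Cardinal.mk_le_aleph0_iff.2 h4
    rw [hIc] at h5
    exact absurd hunc (not_lt.2 h5)
  have hfr : ∃ᶠ n in atTop, g n < f n := by
    rw [Filter.not_eventually] at hfg
    exact hfg.mono fun n hn => not_le.1 hn
  obtain ⟨n, hn1, U, hU, hdU, x, hxU, hxF⟩ := (hfr.and_eventually (hF (d i))).exists
  rcases hU with ⟨k, rfl⟩ | rfl
  · have hki : i = k := hWc k i (subset_closure hdU.1)
    subst hki
    obtain ⟨m, hm, hmx⟩ := hg n x hxF
    have h1 : x ∈ O (c n x) n := hc' n x ⟨i, hxU⟩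
    rw [← hmx] at h1
    refine hxU.2 ?_
    simp only [Set.mem_iUnion, Set.mem_ofPred_eq]
    refine ⟨m, ⟨?_, ?_⟩, ?_⟩
    · rw [hi1]; exact lt_of_le_of_lt hm hn1
    · rw [hi1]; exact fun h => hi2 ⟨m, h⟩
    · rw [hi1]; exact subset_closure h1.1
  · exact hdU ⟨i, rfl⟩

/-- In ZFC, every closed discrete subspace `D` of a regular (`T₁`) strongly star-Hurewicz space
has cardinality less than `λ = min {κ : 𝔟 ≤ κ ≤ 𝔠, cof([κ]^ℵ₀) = κ}`, where moreover the minimum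
is attained (so `λ` is well defined). -/
theorem result :
    (bNum ≤ lam ∧ lam ≤ 𝔠 ∧ cofCountable lam = lam ∧
      ∀ κ, bNum ≤ κ → κ ≤ 𝔠 → cofCountable κ = κ → lam ≤ κ) ∧
    ∀ (X : Type u) [TopologicalSpace X] [T1Space X] [RegularSpace X],
      StronglyStarHurewicz X → ∀ D : Set X, IsClosed D → DiscreteTopology D →
        lift.{0} #D < lift.{u} lam := by
  refine ⟨⟨lam_mem.1, lam_mem.2.1, lam_mem.2.2, fun κ h1 h2 h3 => csInf_le' ⟨h1, h2, h3⟩⟩, ?_⟩
  intro X _ _ _ hX D hc hd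
  by_contra h
  exact not_ssh hc hd (not_lt.1 h) hX

end Pool.Agent.Results.MP_bbbdfa_lc.ClosedDiscreteBound
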